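import Mathlib
import Pool.Agent.H7.Kiss.Mixed

set_option autoImplicit false

namespace Pool.Agent.Results.MP_4b805a_co.MixedFamily

/-- Nine plane sets of the same constant width, eight of which meet the first one, cannot be
pairwise non-overlapping; the sets need not be congruent. -/
theorem result (w : ℝ) (hw : 0 < w) (K : Fin 9 → Set (EuclideanSpace ℝ (Fin 2)))
    (hconv : ∀ i, Convex ℝ (K i)) (hcpt : ∀ i, IsCompact (K i)) (hne : ∀ i, (K i).Nonempty)
    (hwid : ∀ i, ∀ u : EuclideanSpace ℝ (Fin 2), ‖u‖ = 1 →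
      sSup ((fun x => inner ℝ x u) '' K i) - sInf ((fun x => inner ℝ x u) '' K i) = w)
    (htouch : ∀ i, i ≠ 0 → (K i ∩ K 0).Nonempty) :
    ∃ i j, i ≠ j ∧ (interior (K i) ∩ interior (K j)).Nonempty := by
  by_contra hcon
  push Not at hcon
  refine Pool.Agent.H7.Kiss.no_eight_mixed hw (K 0) (fun i => K i.succ) (hconv 0) (hcpt 0) (hne 0)
    (hwid 0) (fun i => hconv _) (fun i => hcpt _) (fun i => hwid _)
    (fun i => htouch _ (Fin.succ_ne_zero i)) (fun i => hcon _ _ (Fin.succ_ne_zero i))
    (fun i j hij => hcon _ _ (fun h => hij (Fin.succ_injective _ h)))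

end Pool.Agent.Results.MP_4b805a_co.MixedFamily
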